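import Pool.Agent.H221R2.FB_VdcGen

/-! Gaps between the integers with a divisor in `(n, 2 n)` (helper89): exponential sums -/

set_option autoImplicit false

open Finset

namespace Pool.Agent.K3h89.GD

open Pool.Agent.H469R2.NK (e norm_e e_add conj_e e_zero)

/-- the derivatives of `- n / t` -/
noncomputable def ph (n : ℝ) (j : ℕ) (t : ℝ) : ℝ :=
  (-1) ^ (j + 1) * (j.factorial : ℝ) * n * (t ^ (j + 1))⁻¹

theorem ph_deriv (n : ℝ) (j : ℕ) (t : ℝ) (ht : 0 < t) : HasDerivAt (ph n j) (ph n (j + 1) t) t := by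
  have h1 : HasDerivAt (fun s : ℝ => s ^ (j + 1)) (((j + 1 : ℕ) : ℝ) * t ^ (j + 1 - 1)) t :=
    hasDerivAt_pow (j + 1) t
  have h2 := h1.inv (pow_ne_zero _ ht.ne')
  have h3 := h2.const_mul ((-1) ^ (j + 1) * (j.factorial : ℝ) * n)
  have e1 : ph n (j + 1) t = (-1) ^ (j + 1) * (j.factorial : ℝ) * n *
      (-(((j + 1 : ℕ) : ℝ) * t ^ (j + 1 - 1)) / (t ^ (j + 1)) ^ 2) := by
    unfold ph
    rw [Nat.factorial_succ, Nat.add_sub_cancel]
    have : t ≠ 0 := ht.ne'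
    push_cast
    field_simp
    ring
  rw [e1]
  exact h3

theorem ph_bd (n : ℝ) (hn : 0 < n) (M j : ℕ) (hj : j ≤ M) (t : ℝ) (h1 : n ≤ t) (h2 : t ≤ 3 * n) :
    1 / 3 ^ (M + 1) ≤ (-1) ^ (j + 1) * ph n j t * n ^ j ∧
      (-1) ^ (j + 1) * ph n j t * n ^ j ≤ (M.factorial : ℝ) := by
  have ht : 0 < t := by linarith
  have e1 : (-1) ^ (j + 1) * ph n j t * n ^ j = (j.factorial : ℝ) * (n / t) ^ (j + 1) := by
    unfold ph
    have e2 : (-1 : ℝ) ^ (j + 1) * (-1) ^ (j + 1) = 1 := by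
      rw [← mul_pow]; norm_num
    rw [div_pow, pow_succ n j]
    calc _ = ((-1 : ℝ) ^ (j + 1) * (-1) ^ (j + 1)) * ((j.factorial : ℝ) * n * (t ^ (j + 1))⁻¹ * n ^ j) := by ring
      _ = _ := by rw [e2]; field_simp
  rw [e1]
  have h3 : (1 : ℝ) / 3 ≤ n / t := by
    rw [div_le_div_iff₀ (by norm_num) ht]; linarith
  have h4 : n / t ≤ 1 := by rw [div_le_one ht]; exact h1
  have h5 : (1 : ℝ) ≤ (j.factorial : ℝ) := by exact_mod_cast Nat.succ_le_of_lt (Nat.factorial_pos j)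
  have h6 : (j.factorial : ℝ) ≤ (M.factorial : ℝ) := by exact_mod_cast Nat.factorial_le hj
  constructor
  · calc (1 : ℝ) / 3 ^ (M + 1) ≤ 1 / 3 ^ (j + 1) := by
          apply one_div_le_one_div_of_le (by positivity)
          exact pow_le_pow_right₀ (by norm_num) (by omega)
      _ = (1 / 3) ^ (j + 1) := by rw [div_pow, one_pow]
      _ ≤ (n / t) ^ (j + 1) := pow_le_pow_left₀ (by norm_num) h3 _
      _ ≤ (j.factorial : ℝ) * (n / t) ^ (j + 1) := le_mul_of_one_le_left (by positivity) h5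
  · calc (j.factorial : ℝ) * (n / t) ^ (j + 1) ≤ (j.factorial : ℝ) * 1 := by
          apply mul_le_mul_of_nonneg_left _ (by linarith)
          exact pow_le_one₀ (by positivity) h4
      _ ≤ _ := by rw [mul_one]; exact h6

theorem exp_sum (k : ℕ) : ∃ η : ℝ, 0 < η ∧ η ≤ 1 ∧ ∃ C : ℝ, 0 < C ∧ ∀ n m h : ℕ, 1 ≤ n → n ≤ m → 1 ≤ h →
    h * m ≤ n ^ (k + 1) → ‖∑ i ∈ range (n - 1), e (h * ((m : ℝ) / ((n : ℝ) + 1 + i)))‖ ≤
      C * ((n : ℝ) ^ (1 - η) + (n : ℝ) ^ 2 / (h * m)) := by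
  obtain ⟨η, hη, hη1, C, hC, H⟩ := Pool.Agent.H221R2.FB.vdc_gen k (1 / 3 ^ (k + 4 + 1)) ((k + 4).factorial : ℝ)
    (by positivity)
  refine ⟨η, hη, hη1, C, hC, fun n m h hn hm hh hhm => ?_⟩
  have hn0 : (0 : ℝ) < n := by exact_mod_cast hn
  have hn1 : (1 : ℝ) ≤ n := by exact_mod_cast hn
  have hm0 : (0 : ℝ) < m := by exact_mod_cast (lt_of_lt_of_le hn hm)
  have hm1 : (n : ℝ) ≤ m := by exact_mod_cast hm
  have hh1 : (1 : ℝ) ≤ h := by exact_mod_cast hh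
  have hhm' : (h : ℝ) * m ≤ (n : ℝ) ^ (k + 1) := by exact_mod_cast hhm
  have hL : ((n - 1 : ℕ) : ℝ) ≤ n := by exact_mod_cast Nat.sub_le n 1
  have hL' : ((n - 1 : ℕ) : ℝ) + 1 = n := by
    rw [Nat.cast_sub hn]; push_cast; ring
  have habs : |(-((h : ℝ) * m / n))| = (h : ℝ) * m / n := by
    rw [abs_neg, abs_of_nonneg (by positivity)]
  have key := H n (n - 1) ((n : ℝ) + 1) (-((h : ℝ) * m / n)) (ph n) hn (by linarith) (Nat.sub_le _ _)
    (by linarith)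
    (fun j _ t ht => ph_deriv n j t (lt_of_lt_of_le hn0 ht.1))
    (fun j _ hj t ht => ph_bd n hn0 (k + 4) j hj t ht.1 ht.2)
    (by
      rw [habs, le_div_iff₀ hn0, one_mul]
      nlinarith)
    (by
      rw [habs, div_le_iff₀ hn0, ← pow_succ]
      exact hhm')
  rw [habs] at key
  have e1 : ∀ i ∈ range (n - 1), e (-((h : ℝ) * m / n) * ph n 0 ((n : ℝ) + 1 + i)) =
      e (h * ((m : ℝ) / ((n : ℝ) + 1 + i))) := by
    intro i _
    congr 1
    unfold ph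
    have : (n : ℝ) + 1 + i ≠ 0 := by positivity
    simp only [Nat.factorial_zero, Nat.cast_one, zero_add, pow_one]
    field_simp
  rw [sum_congr rfl e1] at key
  refine key.trans (le_of_eq ?_)
  congr 2
  field_simp

end Pool.Agent.K3h89.GD
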