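import Pool.Agent.H469R2.NK.KL

/-! Gaps between the integers with a divisor in `(n, 2 n)` (helper89): a point just below an integer -/

set_option autoImplicit false

open Finset

namespace Pool.Agent.K3h89.GD

open Pool.Agent.H469R2.NK (e norm_e e_add conj_e e_zero)

theorem e_sub_one (θ r : ℝ) (z : ℤ) (h : θ = z + r) (hr : |r| ≤ 1 / 2) : 4 * |r| ≤ ‖e θ - 1‖ := by
  have h1 : e θ = Complex.exp (Complex.I * ((2 * Real.pi * r : ℝ) : ℂ)) := by
    unfold e
    rw [h]
    have e1 : (((2 * Real.pi * ((z : ℝ) + r) : ℝ) : ℂ) * Complex.I) =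
        Complex.I * ((2 * Real.pi * r : ℝ) : ℂ) + z * (2 * Real.pi * Complex.I) := by
      push_cast
      ring
    rw [e1, Complex.exp_add, Complex.exp_int_mul_two_pi_mul_I, mul_one]
  rw [h1, Complex.norm_exp_I_mul_ofReal_sub_one]
  have e2 : 2 * Real.pi * r / 2 = Real.pi * r := by ring
  rw [e2, Real.norm_eq_abs, abs_mul, abs_of_pos (show (0 : ℝ) < 2 by norm_num)]
  have h3 : |Real.sin (Real.pi * r)| = Real.sin (Real.pi * |r|) := by
    rcases le_or_gt 0 r with h0 | h0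
    · rw [abs_of_nonneg h0] at hr ⊢
      rw [abs_of_nonneg]
      apply Real.sin_nonneg_of_nonneg_of_le_pi (by positivity)
      nlinarith [Real.pi_pos]
    · rw [abs_of_neg h0] at hr ⊢
      have e3 : Real.pi * r = -(Real.pi * -r) := by ring
      rw [e3, Real.sin_neg, abs_neg, abs_of_nonneg]
      apply Real.sin_nonneg_of_nonneg_of_le_pi
      · have : 0 ≤ -r := by linarith
        positivity
      · nlinarith [Real.pi_pos]
  rw [h3]
  have h4 := Real.mul_le_sin (x := Real.pi * |r|) (by positivity) (by nlinarith [Real.pi_pos])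
  have e4 : 2 / Real.pi * (Real.pi * |r|) = 2 * |r| := by
    field_simp
  rw [e4] at h4
  linarith

theorem e_mul_nat (θ : ℝ) (h : ℕ) : e (h * θ) = e θ ^ h := by
  induction h with
  | zero => simp [e_zero]
  | succ h ih =>
    rw [pow_succ, ← ih, ← e_add]
    congr 1
    push_cast
    ring

theorem geom_le (θ δ : ℝ) (hδ : 0 < δ) (hδ1 : δ ≤ 1) (R : ℕ) (h : ∀ z : ℤ, δ / 2 ≤ |θ - z|) :
    ‖∑ j ∈ range R, e (j * θ)‖ ≤ 1 / δ := by
  have h1 : (∑ j ∈ range R, e (j * θ)) * (e θ - 1) = e θ ^ R - 1 := by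
    rw [← geom_sum_mul]
    congr 1
    exact sum_congr rfl fun j _ => e_mul_nat θ j
  have h2 : ‖e θ ^ R - 1‖ ≤ 2 := by
    calc ‖e θ ^ R - 1‖ ≤ ‖e θ ^ R‖ + ‖(1 : ℂ)‖ := norm_sub_le _ _
      _ = 2 := by rw [norm_pow, norm_e, one_pow, norm_one]; norm_num
  have h3 : 4 * |θ - round θ| ≤ ‖e θ - 1‖ :=
    e_sub_one θ (θ - round θ) (round θ) (by ring) (abs_sub_round θ)
  have h4 := h (round θ)
  have h5 : 2 * δ ≤ ‖e θ - 1‖ := by linarith
  have h6 : ‖∑ j ∈ range R, e (j * θ)‖ * ‖e θ - 1‖ ≤ 2 := by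
    rw [← norm_mul, h1]
    exact h2
  rw [le_div_iff₀ hδ]
  have h7 := mul_le_mul_of_nonneg_left h5 (norm_nonneg (∑ j ∈ range R, e (j * θ)))
  nlinarith

/-- if no point is just below an integer, then the exponential sums cannot all be small -/
theorem fejer (L R : ℕ) (x : ℕ → ℝ) (δ B : ℝ) (hδ : 0 < δ) (hδ1 : δ ≤ 1) (hB : 0 ≤ B)
    (hS : ∀ h : ℕ, 1 ≤ h → h < R → ‖∑ i ∈ range L, e (h * x i)‖ ≤ B)
    (hx : ∀ i < L, ∀ z : ℤ, ¬ ((z : ℝ) - δ < x i ∧ x i < z)) :
    (R : ℝ) * L ≤ (R : ℝ) ^ 2 * B + L * (1 / δ) ^ 2 := by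
  classical
  -- the expansion
  have hexp : ∀ θ : ℝ, ((‖∑ j ∈ range R, e (j * θ)‖ ^ 2 : ℝ) : ℂ) =
      ∑ j ∈ range R, ∑ j' ∈ range R, e (((j : ℝ) - j') * θ) := by
    intro θ
    push_cast
    rw [← Complex.mul_conj', map_sum, sum_mul_sum]
    refine sum_congr rfl fun j _ => sum_congr rfl fun j' _ => ?_
    rw [conj_e, ← e_add]
    congr 1
    ring
  have h1 : ((∑ i ∈ range L, ‖∑ j ∈ range R, e (j * (x i + δ / 2))‖ ^ 2 : ℝ) : ℂ) =
      ∑ j ∈ range R, ∑ j' ∈ range R, e (((j : ℝ) - j') * (δ / 2)) * ∑ i ∈ range L, e (((j : ℝ) - j') * x i) := by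
    rw [Complex.ofReal_sum]
    rw [sum_congr rfl fun i _ => hexp (x i + δ / 2)]
    rw [sum_comm]
    refine sum_congr rfl fun j _ => ?_
    rw [sum_comm]
    refine sum_congr rfl fun j' _ => ?_
    rw [mul_sum]
    refine sum_congr rfl fun i _ => ?_
    rw [← e_add]
    congr 1
    ring
  -- off-diagonal terms
  have hoff : ∀ j ∈ range R, ∀ j' ∈ range R, j ≠ j' →
      ‖e (((j : ℝ) - j') * (δ / 2)) * ∑ i ∈ range L, e (((j : ℝ) - j') * x i)‖ ≤ B := by
    intro j hj j' hj' hne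
    rw [mem_range] at hj hj'
    rw [norm_mul, norm_e, one_mul]
    rcases Nat.lt_or_gt_of_ne hne with h | h
    · have h2 := hS (j' - j) (by omega) (by omega)
      have h3 : ∑ i ∈ range L, e (((j : ℝ) - j') * x i) =
          (starRingEnd ℂ) (∑ i ∈ range L, e (((j' - j : ℕ) : ℝ) * x i)) := by
        rw [map_sum]
        refine sum_congr rfl fun i _ => ?_
        rw [conj_e]
        congr 1
        rw [Nat.cast_sub h.le]
        ring
      rw [h3, RCLike.norm_conj]
      exact h2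
    · have h2 := hS (j - j') (by omega) (by omega)
      rw [Nat.cast_sub h.le] at h2
      exact h2
  have h2 : ‖∑ j ∈ range R, ∑ j' ∈ range R, e (((j : ℝ) - j') * (δ / 2)) *
      ∑ i ∈ range L, e (((j : ℝ) - j') * x i) - ((R * L : ℝ) : ℂ)‖ ≤ (R : ℝ) ^ 2 * B := by
    have h3 : ((R * L : ℝ) : ℂ) = ∑ j ∈ range R, ∑ j' ∈ range R, if j = j' then (L : ℂ) else 0 := by
      have h4 : ∀ j ∈ range R, (∑ j' ∈ range R, if j = j' then (L : ℂ) else 0) = L := by
        intro j hj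
        rw [sum_ite_eq, if_pos hj]
      rw [sum_congr rfl h4, sum_const, card_range, nsmul_eq_mul]
      push_cast
      rfl
    rw [h3, ← sum_sub_distrib]
    refine (norm_sum_le _ _).trans ?_
    have h5 : ∀ j ∈ range R, ‖∑ j' ∈ range R, e (((j : ℝ) - j') * (δ / 2)) *
        ∑ i ∈ range L, e (((j : ℝ) - j') * x i) - ∑ j' ∈ range R, (if j = j' then (L : ℂ) else 0)‖ ≤ R * B := by
      intro j hj
      rw [← sum_sub_distrib]
      refine (norm_sum_le _ _).trans ?_
      have h6 : ∀ j' ∈ range R, ‖e (((j : ℝ) - j') * (δ / 2)) *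
        ∑ i ∈ range L, e (((j : ℝ) - j') * x i) - (if j = j' then (L : ℂ) else 0)‖ ≤ B := by
        intro j' hj'
        by_cases h7 : j = j'
        · rw [if_pos h7, h7, sub_self, zero_mul, e_zero, one_mul]
          simp only [zero_mul, e_zero, sum_const, card_range, nsmul_eq_mul, mul_one, sub_self, norm_zero]
          exact hB
        · rw [if_neg h7, sub_zero]
          exact hoff j hj j' hj' h7
      refine (sum_le_sum h6).trans ?_
      rw [sum_const, card_range, nsmul_eq_mul]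
    refine (sum_le_sum h5).trans ?_
    rw [sum_const, card_range, nsmul_eq_mul]
    apply le_of_eq
    ring
  rw [← h1] at h2
  have h3 : |(∑ i ∈ range L, ‖∑ j ∈ range R, e (j * (x i + δ / 2))‖ ^ 2) - (R * L : ℝ)| ≤ (R : ℝ) ^ 2 * B := by
    rw [← Complex.ofReal_sub, Complex.norm_real, Real.norm_eq_abs] at h2
    exact h2
  have h4 : ∑ i ∈ range L, ‖∑ j ∈ range R, e (j * (x i + δ / 2))‖ ^ 2 ≤ L * (1 / δ) ^ 2 := by
    have h5 : ∀ i ∈ range L, ‖∑ j ∈ range R, e (j * (x i + δ / 2))‖ ^ 2 ≤ (1 / δ) ^ 2 := by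
      intro i hi
      rw [mem_range] at hi
      apply pow_le_pow_left₀ (norm_nonneg _)
      apply geom_le _ δ hδ hδ1
      intro z
      by_contra hcon
      have h6 := abs_lt.1 (not_le.1 hcon)
      exact hx i hi z ⟨by linarith [h6.1], by linarith [h6.2]⟩
    refine (sum_le_sum h5).trans ?_
    rw [sum_const, card_range, nsmul_eq_mul]
  linarith [(abs_le.1 h3).1]

end Pool.Agent.K3h89.GD
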