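import Pool.Agent.K3h89.GD.LS

/-! Gaps between the integers with a divisor in `(n, 2 n)` (helper89): sums of long gaps -/

set_option autoImplicit false

open Finset

namespace Pool.Agent.K3h89.GD

open Classical in
/-- the integers in `[n, n ^ k]` with a divisor in `(n, 2 n)` -/
noncomputable def A (k n : ℕ) : Finset ℕ := (Icc n (n ^ k)).filter (HasDiv n)

open Classical in
/-- the pairs of consecutive elements -/
noncomputable def gaps (k n : ℕ) : Finset (ℕ × ℕ) :=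
  (A k n ×ˢ A k n).filter (fun z => z.1 < z.2 ∧ ∀ m ∈ A k n, ¬ (z.1 < m ∧ m < z.2))

theorem mem_A {k n m : ℕ} : m ∈ A k n ↔ (n ≤ m ∧ m ≤ n ^ k) ∧ HasDiv n m := by
  classical
  simp only [A, mem_filter, mem_Icc]

theorem mem_gaps {k n : ℕ} {z : ℕ × ℕ} : z ∈ gaps k n ↔
    (z.1 ∈ A k n ∧ z.2 ∈ A k n) ∧ z.1 < z.2 ∧ ∀ m ∈ A k n, ¬ (z.1 < m ∧ m < z.2) := by
  classical
  simp only [gaps, mem_filter, mem_product]

theorem sum_gaps (k n H : ℕ) (hn : 1 ≤ n) (S : Finset (ℕ × ℕ)) (hS : S ⊆ gaps k n)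
    (hH : ∀ z ∈ S, z.1 + 2 * H ≤ z.2) :
    ∑ z ∈ S, ((z.2 : ℝ) - z.1) ≤ 2 * (Bad n (n ^ k) H).card := by
  classical
  have hdisj : (S : Set (ℕ × ℕ)).PairwiseDisjoint (fun z => Ico z.1 (z.2 - H)) := by
    intro z hz z' hz' hne
    rw [Function.onFun, Finset.disjoint_left]
    intro m hm hm'
    rw [mem_Ico] at hm hm'
    apply hne
    have h1 := mem_gaps.1 (hS hz)
    have h2 := mem_gaps.1 (hS hz')
    have a1 := h1.2.2 z'.1 h2.1.1
    have a2 := h2.2.2 z.1 h1.1.1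
    have a3 := h1.2.2 z'.2 h2.1.2
    have a4 := h2.2.2 z.2 h1.1.2
    have b1 := h1.2.1
    have b2 := h2.2.1
    apply Prod.ext
    · omega
    · omega
  have hcard : ∑ z ∈ S, (Ico z.1 (z.2 - H)).card ≤ (Bad n (n ^ k) H).card := by
    rw [← card_biUnion hdisj]
    apply card_le_card
    intro m hm
    rw [mem_biUnion] at hm
    obtain ⟨z, hz, hmz⟩ := hm
    rw [mem_Ico] at hmz
    have h1 := mem_gaps.1 (hS hz)
    have h3 := (mem_A.1 h1.1.1).1
    have h4 := (mem_A.1 h1.1.2).1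
    unfold Bad
    rw [mem_filter, mem_Icc]
    refine ⟨⟨by omega, by omega⟩, fun N hN1 hN2 hN => ?_⟩
    exact h1.2.2 N (mem_A.2 ⟨⟨by omega, by omega⟩, hN⟩) ⟨by omega, by omega⟩
  have hterm : ∀ z ∈ S, ((z.2 : ℝ) - z.1) ≤ 2 * ((Ico z.1 (z.2 - H)).card : ℝ) := by
    intro z hz
    have h1 := hH z hz
    rw [Nat.card_Ico]
    have h2 : z.2 ≤ z.1 + 2 * (z.2 - H - z.1) := by omega
    have h3 : (z.2 : ℝ) ≤ z.1 + 2 * ((z.2 - H - z.1 : ℕ) : ℝ) := by exact_mod_cast h2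
    linarith
  calc ∑ z ∈ S, ((z.2 : ℝ) - z.1) ≤ ∑ z ∈ S, 2 * ((Ico z.1 (z.2 - H)).card : ℝ) := sum_le_sum hterm
    _ = 2 * ((∑ z ∈ S, (Ico z.1 (z.2 - H)).card : ℕ) : ℝ) := by
        rw [← mul_sum]
        push_cast
        rfl
    _ ≤ 2 * (Bad n (n ^ k) H).card := by
        have : ((∑ z ∈ S, (Ico z.1 (z.2 - H)).card : ℕ) : ℝ) ≤ (Bad n (n ^ k) H).card := by exact_mod_cast hcard
        linarith

theorem long_gaps : ∃ C : ℝ, 0 < C ∧ ∀ k n : ℕ, 2 ≤ k → 2 ≤ n → ∀ G : ℝ, 1 ≤ G →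
    ∑ z ∈ (gaps k n).filter (fun z => G ≤ (z.2 : ℝ) - z.1), ((z.2 : ℝ) - z.1) ≤
      C * (n : ℝ) ^ k * Real.log n / G := by
  classical
  obtain ⟨C, hC, h⟩ := bad_le
  have hl2 : 0 < Real.log 2 := Real.log_pos (by norm_num)
  refine ⟨8 * C + 8 / Real.log 2, by positivity, fun k n hk hn G hG => ?_⟩
  have hnr : (2 : ℝ) ≤ n := by exact_mod_cast hn
  have hl : Real.log 2 ≤ Real.log n := Real.log_le_log (by norm_num) hnr
  have hl0 : 0 < Real.log n := lt_of_lt_of_le hl2 hl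
  have hG0 : 0 < G := by linarith
  have hX : n ^ 2 ≤ n ^ k := Nat.pow_le_pow_right (by omega) hk
  have hXr : (0 : ℝ) < (n : ℝ) ^ k := by positivity
  by_cases h4 : G < 4
  · have h1 := sum_gaps k n 0 (by omega) ((gaps k n).filter (fun z => G ≤ (z.2 : ℝ) - z.1)) (filter_subset _ _)
      (by
        intro z hz
        have := (mem_gaps.1 (filter_subset _ _ hz)).2.1
        omega)
    refine h1.trans ?_
    have h2 : (Bad n (n ^ k) 0).card ≤ n ^ k := by
      refine (card_filter_le _ _).trans ?_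
      rw [Nat.card_Icc]
      omega
    have h3 : ((Bad n (n ^ k) 0).card : ℝ) ≤ (n : ℝ) ^ k := by exact_mod_cast h2
    rw [le_div_iff₀ hG0]
    have h5 : 8 ≤ (8 * C + 8 / Real.log 2) * Real.log n := by
      have h7 : (8 : ℝ) ≤ 8 / Real.log 2 * Real.log n := by
        rw [div_mul_eq_mul_div, le_div_iff₀ hl2]
        linarith
      have h8 : 0 ≤ 8 * C * Real.log n := by positivity
      linarith
    calc 2 * ((Bad n (n ^ k) 0).card : ℝ) * G ≤ 2 * (n : ℝ) ^ k * 4 := by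
          apply mul_le_mul (by linarith) h4.le hG0.le (by positivity)
      _ = (n : ℝ) ^ k * 8 := by ring
      _ ≤ (n : ℝ) ^ k * ((8 * C + 8 / Real.log 2) * Real.log n) := mul_le_mul_of_nonneg_left h5 hXr.le
      _ = _ := by ring
  · have h4' : 4 ≤ G := not_lt.1 h4
    obtain ⟨H, hH⟩ : ∃ H : ℕ, H = ⌊G / 2⌋₊ := ⟨_, rfl⟩
    have hH1 : (H : ℝ) ≤ G / 2 := by rw [hH]; exact Nat.floor_le (by linarith)
    have hH2 : G / 2 < H + 1 := by rw [hH]; exact Nat.lt_floor_add_one _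
    have hH3 : 1 ≤ H := by
      have : (0 : ℝ) < H := by linarith
      exact_mod_cast this
    have hH4 : G / 4 ≤ H := by linarith
    have h1 := sum_gaps k n H (by omega) ((gaps k n).filter (fun z => G ≤ (z.2 : ℝ) - z.1)) (filter_subset _ _)
      (by
        intro z hz
        rw [mem_filter] at hz
        have h5 : ((z.1 + 2 * H : ℕ) : ℝ) ≤ z.2 := by
          push_cast
          linarith [hz.2]
        exact_mod_cast h5)
    refine h1.trans ?_
    have h2 := h n (n ^ k) H hn hX hH3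
    push_cast at h2
    have h3 : C * (n : ℝ) ^ k * Real.log n / H ≤ C * (n : ℝ) ^ k * Real.log n / (G / 4) :=
      div_le_div_of_nonneg_left (by positivity) (by positivity) hH4
    have e : 2 * (C * (n : ℝ) ^ k * Real.log n / (G / 4)) = 8 * C * (n : ℝ) ^ k * Real.log n / G := by
      field_simp
      ring
    calc 2 * ((Bad n (n ^ k) H).card : ℝ) ≤ 2 * (C * (n : ℝ) ^ k * Real.log n / (G / 4)) := by linarith
      _ = 8 * C * (n : ℝ) ^ k * Real.log n / G := e
      _ ≤ (8 * C + 8 / Real.log 2) * (n : ℝ) ^ k * Real.log n / G := by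
          apply div_le_div_of_nonneg_right _ hG0.le
          apply mul_le_mul_of_nonneg_right _ hl0.le
          apply mul_le_mul_of_nonneg_right _ hXr.le
          have : 0 < 8 / Real.log 2 := by positivity
          linarith

end Pool.Agent.K3h89.GD
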