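import Pool.Agent.K3h31.WL.LSW
import Pool.Agent.K3h89.SI.Real

/-! Gaps between the integers with a divisor in `(n, 2 n)` (helper89): the large sieve -/

set_option autoImplicit false

open Finset

namespace Pool.Agent.K3h89.GD

/-- `m` has a divisor in `(n, 2 n)` -/
def HasDiv (n m : ℕ) : Prop := ∃ d : ℕ, n < d ∧ d < 2 * n ∧ d ∣ m

open Classical in
/-- the `m ≤ X` such that no element of `(m, m + H]` has a divisor in `(n, 2 n)` -/
noncomputable def Bad (n X H : ℕ) : Finset ℕ :=
  (Icc 1 X).filter (fun m => ∀ N, m < N → N ≤ m + H → ¬ HasDiv n N)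

theorem bad_ls (n X H : ℕ) (hX : n ^ 2 ≤ X) (P : Finset ℕ) (hP : ∀ p ∈ P, p.Prime ∧ n < p ∧ p < 2 * n) :
    ((Bad n X H).card : ℝ) * (H * ∑ p ∈ P, (1 : ℝ) / p) ^ 2 ≤ 30 * X * (H * ∑ p ∈ P, (1 : ℝ) / p) := by
  classical
  have h := Pool.Agent.K3h31.WL.ls_windows X (2 * n) H P (fun _ => {0}) (P.image (fun p => {p})) (fun _ => 1)
    (fun p hp => (hP p hp).1)
    (fun p hp => by
      intro x hx
      rw [mem_singleton] at hx
      rw [hx, mem_range]
      exact (hP p hp).1.pos)
    (by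
      intro s hs
      rw [mem_image] at hs
      obtain ⟨p, hp, rfl⟩ := hs
      refine ⟨singleton_subset_iff.2 hp, ?_⟩
      rw [prod_singleton]
      exact (hP p hp).2.2.le)
    (by
      intro s hs
      rw [mem_image] at hs
      obtain ⟨p, hp, rfl⟩ := hs
      exact singleton_nonempty p)
  have hinj : ∀ x ∈ P, ∀ y ∈ P, ({x} : Finset ℕ) = {y} → x = y := fun x _ y _ h => singleton_injective h
  have e1 : ∑ s ∈ P.image (fun p => ({p} : Finset ℕ)), (1 : ℝ) ^ 2 * ∏ q ∈ s, ((({0} : Finset ℕ).card : ℝ)) ^ 2 / q =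
      ∑ p ∈ P, (1 : ℝ) / p := by
    rw [sum_image hinj]
    refine sum_congr rfl fun p _ => ?_
    rw [prod_singleton, card_singleton]
    norm_num
  rw [e1] at h
  have hsub : Bad n X H ⊆ Icc 1 X := filter_subset _ _
  have h2 : ∑ m ∈ Bad n X H, (H * ∑ p ∈ P, (1 : ℝ) / p) ^ 2 ≤
      ∑ m ∈ Icc 1 X, (∑ j ∈ Icc 1 H, ∑ s ∈ P.image (fun p => ({p} : Finset ℕ)),
        (1 : ℝ) * ∏ q ∈ s, Pool.Agent.K3h31.WL.bal (fun _ => {0}) q (m + j)) ^ 2 := by
    refine le_trans (le_of_eq ?_) (sum_le_sum_of_subset_of_nonneg hsub (fun _ _ _ => sq_nonneg _))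
    refine sum_congr rfl fun m hm => ?_
    unfold Bad at hm
    rw [mem_filter] at hm
    have e2 : ∀ j ∈ Icc 1 H, ∑ s ∈ P.image (fun p => ({p} : Finset ℕ)),
        (1 : ℝ) * ∏ q ∈ s, Pool.Agent.K3h31.WL.bal (fun _ => {0}) q (m + j) = -∑ p ∈ P, (1 : ℝ) / p := by
      intro j hj
      rw [mem_Icc] at hj
      rw [sum_image hinj, ← sum_neg_distrib]
      refine sum_congr rfl fun p hp => ?_
      rw [prod_singleton]
      unfold Pool.Agent.K3h31.WL.bal
      rw [if_neg, card_singleton]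
      · push_cast
        ring
      · intro h0
        rw [mem_singleton] at h0
        exact hm.2 (m + j) (by omega) (by omega) ⟨p, (hP p hp).2.1, (hP p hp).2.2, Nat.dvd_of_mod_eq_zero h0⟩
    rw [sum_congr rfl e2, sum_const, Nat.card_Icc, nsmul_eq_mul]
    have e3 : H + 1 - 1 = H := by omega
    rw [e3]
    ring
  rw [sum_const, nsmul_eq_mul] at h2
  refine (h2.trans h).trans ?_
  have hσ : 0 ≤ ∑ p ∈ P, (1 : ℝ) / p := sum_nonneg fun p _ => by positivity
  apply mul_le_mul_of_nonneg_right _ (by positivity)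
  have hXr : ((n : ℝ)) ^ 2 ≤ X := by exact_mod_cast hX
  push_cast
  nlinarith

theorem bad_le : ∃ C : ℝ, 0 < C ∧ ∀ n X H : ℕ, 2 ≤ n → n ^ 2 ≤ X → 1 ≤ H →
    ((Bad n X H).card : ℝ) ≤ C * X * Real.log n / H := by
  classical
  obtain ⟨θ, c, hθ0, hθ1, hc, x₀, hx₀⟩ := Pool.Agent.K3h89.SI.count_primes
  obtain ⟨n₀, hn₀⟩ : ∃ n₀ : ℕ, x₀ ≤ n₀ := exists_nat_ge x₀
  have hl2 : 0 < Real.log 2 := Real.log_pos (by norm_num)
  refine ⟨60 / c + (n₀ + 1) / Real.log 2, by positivity, fun n X H hn hX hH => ?_⟩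
  have hnr : (2 : ℝ) ≤ n := by exact_mod_cast hn
  have hHr : (1 : ℝ) ≤ H := by exact_mod_cast hH
  have hl : Real.log 2 ≤ Real.log n := Real.log_le_log (by norm_num) hnr
  have hl0 : 0 < Real.log n := lt_of_lt_of_le hl2 hl
  have hX0 : (0 : ℝ) ≤ X := Nat.cast_nonneg X
  by_cases h1 : n + 1 ≤ H
  · -- the windows are long
    have h2 : Bad n X H = ∅ := by
      rw [Finset.eq_empty_iff_forall_notMem]
      intro m hm
      unfold Bad at hm
      rw [mem_filter] at hm
      have h3 := Nat.div_add_mod m (n + 1)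
      have h4 := Nat.mod_lt m (show 0 < n + 1 by omega)
      have e : (n + 1) * (m / (n + 1) + 1) = (n + 1) * (m / (n + 1)) + (n + 1) := by ring
      exact hm.2 ((n + 1) * (m / (n + 1) + 1)) (by omega) (by omega) ⟨n + 1, by omega, by omega, Dvd.intro _ rfl⟩
    rw [h2, card_empty]
    push_cast
    positivity
  · by_cases h2 : n₀ ≤ n
    · -- the large sieve
      obtain ⟨P, hPd⟩ : ∃ P : Finset ℕ, P = (Ioo n (2 * n)).filter Nat.Prime := ⟨_, rfl⟩
      have hP : ∀ p ∈ P, p.Prime ∧ n < p ∧ p < 2 * n := by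
        intro p hp
        rw [hPd, mem_filter, mem_Ioo] at hp
        exact ⟨hp.2, hp.1.1, hp.1.2⟩
      have hn₀r : (n₀ : ℝ) ≤ n := by exact_mod_cast h2
      have h3 := hx₀ n n (by linarith) (by
        calc (n : ℝ) ^ θ ≤ (n : ℝ) ^ (1 : ℝ) := Real.rpow_le_rpow_of_exponent_le (by linarith) hθ1.le
          _ = n := Real.rpow_one _) le_rfl
      have h4 : {p : ℕ | p.Prime ∧ (n : ℝ) < p ∧ (p : ℝ) < n + n}.ncard ≤ P.card := by
        rw [← Set.ncard_coe_finset]
        apply Set.ncard_le_ncard _ P.finite_toSet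
        rintro p ⟨h5, h6, h7⟩
        rw [mem_coe, hPd, mem_filter, mem_Ioo]
        refine ⟨⟨by exact_mod_cast h6, ?_⟩, h5⟩
        have h8 : (p : ℝ) < ((n + n : ℕ) : ℝ) := by push_cast; exact h7
        have h9 : p < n + n := by exact_mod_cast h8
        omega
      have h5 : c * (n / Real.log n) ≤ P.card := h3.trans (by exact_mod_cast h4)
      have h6 : (P.card : ℝ) * (1 / (2 * n)) ≤ ∑ p ∈ P, (1 : ℝ) / p := by
        rw [← nsmul_eq_mul]
        apply card_nsmul_le_sum
        intro p hp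
        have h7 := hP p hp
        have h8 : (p : ℝ) ≤ 2 * n := by exact_mod_cast h7.2.2.le
        have h9 : (0 : ℝ) < p := by exact_mod_cast h7.1.pos
        exact one_div_le_one_div_of_le h9 h8
      obtain ⟨σ, hσ⟩ : ∃ σ : ℝ, σ = ∑ p ∈ P, (1 : ℝ) / p := ⟨_, rfl⟩
      have h7 : c / (2 * Real.log n) ≤ σ := by
        rw [hσ]
        refine le_trans ?_ h6
        have h8 := mul_le_mul_of_nonneg_right h5 (show (0 : ℝ) ≤ 1 / (2 * n) by positivity)
        refine le_trans (le_of_eq ?_) h8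
        field_simp
      have hσ0 : 0 < σ := lt_of_lt_of_le (by positivity) h7
      have h8 := bad_ls n X H hX P hP
      rw [← hσ] at h8
      have h9 : 0 < (H : ℝ) * σ := by positivity
      have h10 : ((Bad n X H).card : ℝ) * (H * σ) ≤ 30 * X := by
        have : ((Bad n X H).card : ℝ) * (H * σ) * (H * σ) ≤ 30 * X * (H * σ) := by
          calc ((Bad n X H).card : ℝ) * (H * σ) * (H * σ) = ((Bad n X H).card : ℝ) * (H * σ) ^ 2 := by ring
            _ ≤ _ := h8
        exact le_of_mul_le_mul_right this h9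
      have h11 : ((Bad n X H).card : ℝ) ≤ 30 * X / (H * σ) := by
        rw [le_div_iff₀ h9]
        exact h10
      refine h11.trans ?_
      have h12 : 30 * X / (H * σ) ≤ 30 * X / (H * (c / (2 * Real.log n))) := by
        apply div_le_div_of_nonneg_left (by positivity) (by positivity)
        exact mul_le_mul_of_nonneg_left h7 (by positivity)
      refine h12.trans ?_
      have e : 30 * (X : ℝ) / (H * (c / (2 * Real.log n))) = 60 / c * X * Real.log n / H := by
        field_simp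
        ring
      rw [e]
      apply div_le_div_of_nonneg_right _ (by linarith)
      apply mul_le_mul_of_nonneg_right _ hl0.le
      apply mul_le_mul_of_nonneg_right _ hX0
      have : 0 ≤ ((n₀ : ℝ) + 1) / Real.log 2 := by positivity
      linarith
    · have h3 : (Bad n X H).card ≤ X := by
        refine (card_filter_le _ _).trans ?_
        rw [Nat.card_Icc]
        omega
      have h4 : ((Bad n X H).card : ℝ) ≤ X := by exact_mod_cast h3
      refine h4.trans ?_
      rw [le_div_iff₀ (by linarith)]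
      have h5 : (H : ℝ) ≤ n₀ + 1 := by
        have : H ≤ n₀ + 1 := by omega
        exact_mod_cast this
      have h6 : (n₀ + 1 : ℝ) ≤ (60 / c + (n₀ + 1) / Real.log 2) * Real.log n := by
        have h7 : (n₀ + 1 : ℝ) ≤ (n₀ + 1) / Real.log 2 * Real.log n := by
          rw [div_mul_eq_mul_div, le_div_iff₀ hl2]
          exact mul_le_mul_of_nonneg_left hl (by positivity)
        have h8 : 0 ≤ 60 / c * Real.log n := by positivity
        linarith
      calc (X : ℝ) * H ≤ X * ((60 / c + (n₀ + 1) / Real.log 2) * Real.log n) :=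
            mul_le_mul_of_nonneg_left (h5.trans h6) hX0
        _ = _ := by ring

end Pool.Agent.K3h89.GD
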