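import Pool.Agent.K3h89.GD.Gaps

/-! Gaps between the integers with a divisor in `(n, 2 n)` (helper89): local version of the bound for long gaps -/

set_option autoImplicit false

open Finset

namespace Pool.Agent.K3h89.GD

open Classical in
/-- the `m ≤ X` such that no element of `(M + m, M + m + H]` has a divisor in `(n, 2 n)` -/
noncomputable def BadL (n M X H : ℕ) : Finset ℕ :=
  (Icc 1 X).filter (fun m => ∀ N, M + m < N → N ≤ M + m + H → ¬ HasDiv n N)

theorem bad_lsL (n M X H : ℕ) (P : Finset ℕ) (hP : ∀ p ∈ P, p.Prime ∧ n < p ∧ p < 2 * n) :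
    ((BadL n M X H).card : ℝ) * (H * ∑ p ∈ P, (1 : ℝ) / p) ^ 2 ≤ 30 * (X + (n : ℝ) ^ 2) * (H * ∑ p ∈ P, (1 : ℝ) / p) := by
  classical
  have h := Pool.Agent.K3h31.WL.ls_windows X (2 * n) H P (fun q => {(q - M % q) % q}) (P.image (fun p => {p})) (fun _ => 1)
    (fun p hp => (hP p hp).1)
    (fun p hp => by
      intro x hx
      rw [mem_singleton] at hx
      rw [hx, mem_range]
      exact Nat.mod_lt _ (hP p hp).1.pos)
    (by
      intro s hs
      rw [mem_image] at hs
      obtain ⟨p, hp, rfl⟩ := hs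
      refine ⟨singleton_subset_iff.2 hp, ?_⟩
      rw [prod_singleton]
      exact (hP p hp).2.2.le)
    (by
      intro s hs
      rw [mem_image] at hs
      obtain ⟨p, hp, rfl⟩ := hs
      exact singleton_nonempty p)
  have hinj : ∀ x ∈ P, ∀ y ∈ P, ({x} : Finset ℕ) = {y} → x = y := fun x _ y _ h => singleton_injective h
  have e1 : ∑ s ∈ P.image (fun p => ({p} : Finset ℕ)), (1 : ℝ) ^ 2 * ∏ q ∈ s, ((({(q - M % q) % q} : Finset ℕ).card : ℝ)) ^ 2 / q =
      ∑ p ∈ P, (1 : ℝ) / p := by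
    rw [sum_image hinj]
    refine sum_congr rfl fun p _ => ?_
    rw [prod_singleton, card_singleton]
    norm_num
  rw [e1] at h
  have hsub : BadL n M X H ⊆ Icc 1 X := filter_subset _ _
  have h2 : ∑ m ∈ BadL n M X H, (H * ∑ p ∈ P, (1 : ℝ) / p) ^ 2 ≤
      ∑ m ∈ Icc 1 X, (∑ j ∈ Icc 1 H, ∑ s ∈ P.image (fun p => ({p} : Finset ℕ)),
        (1 : ℝ) * ∏ q ∈ s, Pool.Agent.K3h31.WL.bal (fun q => {(q - M % q) % q}) q (m + j)) ^ 2 := by
    refine le_trans (le_of_eq ?_) (sum_le_sum_of_subset_of_nonneg hsub (fun _ _ _ => sq_nonneg _))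
    refine sum_congr rfl fun m hm => ?_
    unfold BadL at hm
    rw [mem_filter] at hm
    have e2 : ∀ j ∈ Icc 1 H, ∑ s ∈ P.image (fun p => ({p} : Finset ℕ)),
        (1 : ℝ) * ∏ q ∈ s, Pool.Agent.K3h31.WL.bal (fun q => {(q - M % q) % q}) q (m + j) = -∑ p ∈ P, (1 : ℝ) / p := by
      intro j hj
      rw [mem_Icc] at hj
      rw [sum_image hinj, ← sum_neg_distrib]
      refine sum_congr rfl fun p hp => ?_
      rw [prod_singleton]
      unfold Pool.Agent.K3h31.WL.bal
      rw [if_neg, card_singleton]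
      · push_cast
        ring
      · intro h0
        rw [mem_singleton] at h0
        refine hm.2 (M + m + j) (by omega) (by omega) ⟨p, (hP p hp).2.1, (hP p hp).2.2, ?_⟩
        have c1 : (m + j) ≡ p - M % p [MOD p] := h0
        have c2 : M ≡ M % p [MOD p] := (Nat.mod_modEq M p).symm
        have c3 := c2.add c1
        have c4 : M % p + (p - M % p) = p := by
          have := Nat.mod_lt M (hP p hp).1.pos
          omega
        rw [c4] at c3
        have c5 : M + (m + j) ≡ 0 [MOD p] := c3.trans (Nat.modEq_zero_iff_dvd.2 dvd_rfl)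
        rw [show M + m + j = M + (m + j) by ring]
        exact (Nat.modEq_zero_iff_dvd).1 c5
    rw [sum_congr rfl e2, sum_const, Nat.card_Icc, nsmul_eq_mul]
    have e3 : H + 1 - 1 = H := by omega
    rw [e3]
    ring
  rw [sum_const, nsmul_eq_mul] at h2
  refine (h2.trans h).trans ?_
  have hσ : 0 ≤ ∑ p ∈ P, (1 : ℝ) / p := sum_nonneg fun p _ => by positivity
  apply mul_le_mul_of_nonneg_right _ (by positivity)
  push_cast
  have hX0 : (0 : ℝ) ≤ X := Nat.cast_nonneg X
  nlinarith [sq_nonneg (n : ℝ)]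

theorem bad_leL : ∃ C : ℝ, 0 < C ∧ ∀ n M X H : ℕ, 2 ≤ n → 1 ≤ H →
    ((BadL n M X H).card : ℝ) ≤ C * (X + (n : ℝ) ^ 2) * Real.log n / H := by
  classical
  obtain ⟨θ, c, hθ0, hθ1, hc, x₀, hx₀⟩ := Pool.Agent.K3h89.SI.count_primes
  obtain ⟨n₀, hn₀⟩ : ∃ n₀ : ℕ, x₀ ≤ n₀ := exists_nat_ge x₀
  have hl2 : 0 < Real.log 2 := Real.log_pos (by norm_num)
  refine ⟨60 / c + (n₀ + 1) / Real.log 2, by positivity, fun n M X H hn hH => ?_⟩
  have hnr : (2 : ℝ) ≤ n := by exact_mod_cast hn
  have hHr : (1 : ℝ) ≤ H := by exact_mod_cast hH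
  have hl : Real.log 2 ≤ Real.log n := Real.log_le_log (by norm_num) hnr
  have hl0 : 0 < Real.log n := lt_of_lt_of_le hl2 hl
  have hX0 : (0 : ℝ) ≤ X := Nat.cast_nonneg X
  have hY0 : (0 : ℝ) ≤ X + (n : ℝ) ^ 2 := by positivity
  by_cases h1 : n + 1 ≤ H
  · -- the windows are long
    have h2 : BadL n M X H = ∅ := by
      rw [Finset.eq_empty_iff_forall_notMem]
      intro m hm
      unfold BadL at hm
      rw [mem_filter] at hm
      have h3 := Nat.div_add_mod (M + m) (n + 1)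
      have h4 := Nat.mod_lt (M + m) (show 0 < n + 1 by omega)
      have e : (n + 1) * ((M + m) / (n + 1) + 1) = (n + 1) * ((M + m) / (n + 1)) + (n + 1) := by ring
      exact hm.2 ((n + 1) * ((M + m) / (n + 1) + 1)) (by omega) (by omega) ⟨n + 1, by omega, by omega, Dvd.intro _ rfl⟩
    rw [h2, card_empty]
    push_cast
    positivity
  · by_cases h2 : n₀ ≤ n
    · -- the large sieve
      obtain ⟨P, hPd⟩ : ∃ P : Finset ℕ, P = (Ioo n (2 * n)).filter Nat.Prime := ⟨_, rfl⟩
      have hP : ∀ p ∈ P, p.Prime ∧ n < p ∧ p < 2 * n := by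
        intro p hp
        rw [hPd, mem_filter, mem_Ioo] at hp
        exact ⟨hp.2, hp.1.1, hp.1.2⟩
      have hn₀r : (n₀ : ℝ) ≤ n := by exact_mod_cast h2
      have h3 := hx₀ n n (by linarith) (by
        calc (n : ℝ) ^ θ ≤ (n : ℝ) ^ (1 : ℝ) := Real.rpow_le_rpow_of_exponent_le (by linarith) hθ1.le
          _ = n := Real.rpow_one _) le_rfl
      have h4 : {p : ℕ | p.Prime ∧ (n : ℝ) < p ∧ (p : ℝ) < n + n}.ncard ≤ P.card := by
        rw [← Set.ncard_coe_finset]
        apply Set.ncard_le_ncard _ P.finite_toSet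
        rintro p ⟨h5, h6, h7⟩
        rw [mem_coe, hPd, mem_filter, mem_Ioo]
        refine ⟨⟨by exact_mod_cast h6, ?_⟩, h5⟩
        have h8 : (p : ℝ) < ((n + n : ℕ) : ℝ) := by push_cast; exact h7
        have h9 : p < n + n := by exact_mod_cast h8
        omega
      have h5 : c * (n / Real.log n) ≤ P.card := h3.trans (by exact_mod_cast h4)
      have h6 : (P.card : ℝ) * (1 / (2 * n)) ≤ ∑ p ∈ P, (1 : ℝ) / p := by
        rw [← nsmul_eq_mul]
        apply card_nsmul_le_sum
        intro p hp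
        have h7 := hP p hp
        have h8 : (p : ℝ) ≤ 2 * n := by exact_mod_cast h7.2.2.le
        have h9 : (0 : ℝ) < p := by exact_mod_cast h7.1.pos
        exact one_div_le_one_div_of_le h9 h8
      obtain ⟨σ, hσ⟩ : ∃ σ : ℝ, σ = ∑ p ∈ P, (1 : ℝ) / p := ⟨_, rfl⟩
      have h7 : c / (2 * Real.log n) ≤ σ := by
        rw [hσ]
        refine le_trans ?_ h6
        have h8 := mul_le_mul_of_nonneg_right h5 (show (0 : ℝ) ≤ 1 / (2 * n) by positivity)
        refine le_trans (le_of_eq ?_) h8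
        field_simp
      have hσ0 : 0 < σ := lt_of_lt_of_le (by positivity) h7
      have h8 := bad_lsL n M X H P hP
      rw [← hσ] at h8
      have h9 : 0 < (H : ℝ) * σ := by positivity
      have h10 : ((BadL n M X H).card : ℝ) * (H * σ) ≤ 30 * (X + (n : ℝ) ^ 2) := by
        have : ((BadL n M X H).card : ℝ) * (H * σ) * (H * σ) ≤ 30 * (X + (n : ℝ) ^ 2) * (H * σ) := by
          calc ((BadL n M X H).card : ℝ) * (H * σ) * (H * σ) = ((BadL n M X H).card : ℝ) * (H * σ) ^ 2 := by ring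
            _ ≤ _ := h8
        exact le_of_mul_le_mul_right this h9
      have h11 : ((BadL n M X H).card : ℝ) ≤ 30 * (X + (n : ℝ) ^ 2) / (H * σ) := by
        rw [le_div_iff₀ h9]
        exact h10
      refine h11.trans ?_
      have h12 : 30 * (X + (n : ℝ) ^ 2) / (H * σ) ≤ 30 * (X + (n : ℝ) ^ 2) / (H * (c / (2 * Real.log n))) := by
        apply div_le_div_of_nonneg_left (by positivity) (by positivity)
        exact mul_le_mul_of_nonneg_left h7 (by positivity)
      refine h12.trans ?_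
      have e : 30 * (X + (n : ℝ) ^ 2) / (H * (c / (2 * Real.log n))) = 60 / c * (X + (n : ℝ) ^ 2) * Real.log n / H := by
        field_simp
        ring
      rw [e]
      apply div_le_div_of_nonneg_right _ (by linarith)
      apply mul_le_mul_of_nonneg_right _ hl0.le
      apply mul_le_mul_of_nonneg_right _ hY0
      have : 0 ≤ ((n₀ : ℝ) + 1) / Real.log 2 := by positivity
      linarith
    · have h3 : (BadL n M X H).card ≤ X := by
        refine (card_filter_le _ _).trans ?_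
        rw [Nat.card_Icc]
        omega
      have h4 : ((BadL n M X H).card : ℝ) ≤ X + (n : ℝ) ^ 2 := by
        have : ((BadL n M X H).card : ℝ) ≤ X := by exact_mod_cast h3
        nlinarith [sq_nonneg (n : ℝ)]
      refine h4.trans ?_
      rw [le_div_iff₀ (by linarith)]
      have h5 : (H : ℝ) ≤ n₀ + 1 := by
        have : H ≤ n₀ + 1 := by omega
        exact_mod_cast this
      have h6 : (n₀ + 1 : ℝ) ≤ (60 / c + (n₀ + 1) / Real.log 2) * Real.log n := by
        have h7 : (n₀ + 1 : ℝ) ≤ (n₀ + 1) / Real.log 2 * Real.log n := by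
          rw [div_mul_eq_mul_div, le_div_iff₀ hl2]
          exact mul_le_mul_of_nonneg_left hl (by positivity)
        have h8 : 0 ≤ 60 / c * Real.log n := by positivity
        linarith
      calc ((X : ℝ) + (n : ℝ) ^ 2) * H ≤ ((X : ℝ) + (n : ℝ) ^ 2) * ((60 / c + (n₀ + 1) / Real.log 2) * Real.log n) :=
            mul_le_mul_of_nonneg_left (h5.trans h6) hY0
        _ = _ := by ring

theorem sum_gapsL (k n H u v : ℕ) (hn : 1 ≤ n) (S : Finset (ℕ × ℕ)) (hS : S ⊆ gaps k n)
    (hH : ∀ z ∈ S, z.1 + 2 * H ≤ z.2) (huv : ∀ z ∈ S, u ≤ z.1 ∧ z.2 ≤ v) :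
    ∑ z ∈ S, ((z.2 : ℝ) - z.1) ≤ 2 * (BadL n (u - 1) (v - (u - 1)) H).card := by
  classical
  have hdisj : (S : Set (ℕ × ℕ)).PairwiseDisjoint (fun z => Ico z.1 (z.2 - H)) := by
    intro z hz z' hz' hne
    rw [Function.onFun, Finset.disjoint_left]
    intro m hm hm'
    rw [mem_Ico] at hm hm'
    apply hne
    have h1 := mem_gaps.1 (hS hz)
    have h2 := mem_gaps.1 (hS hz')
    have a1 := h1.2.2 z'.1 h2.1.1
    have a2 := h2.2.2 z.1 h1.1.1
    have a3 := h1.2.2 z'.2 h2.1.2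
    have a4 := h2.2.2 z.2 h1.1.2
    have b1 := h1.2.1
    have b2 := h2.2.1
    apply Prod.ext
    · omega
    · omega
  have hcard : ∑ z ∈ S, (Ico z.1 (z.2 - H)).card ≤ (BadL n (u - 1) (v - (u - 1)) H).card := by
    rw [← card_biUnion hdisj]
    have hpos : ∀ m ∈ S.biUnion (fun z => Ico z.1 (z.2 - H)), u - 1 < m := by
      intro m hm
      rw [mem_biUnion] at hm
      obtain ⟨z, hz, hmz⟩ := hm
      rw [mem_Ico] at hmz
      have h3 := (mem_A.1 (mem_gaps.1 (hS hz)).1.1).1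
      have h5 := huv z hz
      omega
    refine card_le_card_of_injOn (fun m => m - (u - 1)) ?_ (by
      intro a ha b hb hab
      have a1 := hpos a ha
      have a2 := hpos b hb
      simp only at hab
      omega)
    intro m hm
    have hm0 := hpos m hm
    rw [mem_coe, mem_biUnion] at hm
    obtain ⟨z, hz, hmz⟩ := hm
    rw [mem_Ico] at hmz
    have h5 := huv z hz
    have h1 := mem_gaps.1 (hS hz)
    have h3 := (mem_A.1 h1.1.1).1
    have h4 := (mem_A.1 h1.1.2).1
    rw [mem_coe]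
    unfold BadL
    rw [mem_filter, mem_Icc]
    beta_reduce
    refine ⟨⟨by omega, by omega⟩, fun N hN1 hN2 hN => ?_⟩
    exact h1.2.2 N (mem_A.2 ⟨⟨by omega, by omega⟩, hN⟩) ⟨by omega, by omega⟩
  have hterm : ∀ z ∈ S, ((z.2 : ℝ) - z.1) ≤ 2 * ((Ico z.1 (z.2 - H)).card : ℝ) := by
    intro z hz
    have h1 := hH z hz
    rw [Nat.card_Ico]
    have h2 : z.2 ≤ z.1 + 2 * (z.2 - H - z.1) := by omega
    have h3 : (z.2 : ℝ) ≤ z.1 + 2 * ((z.2 - H - z.1 : ℕ) : ℝ) := by exact_mod_cast h2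
    linarith
  calc ∑ z ∈ S, ((z.2 : ℝ) - z.1) ≤ ∑ z ∈ S, 2 * ((Ico z.1 (z.2 - H)).card : ℝ) := sum_le_sum hterm
    _ = 2 * ((∑ z ∈ S, (Ico z.1 (z.2 - H)).card : ℕ) : ℝ) := by
        rw [← mul_sum]
        push_cast
        rfl
    _ ≤ 2 * (BadL n (u - 1) (v - (u - 1)) H).card := by
        have : ((∑ z ∈ S, (Ico z.1 (z.2 - H)).card : ℕ) : ℝ) ≤ (BadL n (u - 1) (v - (u - 1)) H).card := by exact_mod_cast hcard
        linarith

theorem long_gapsL : ∃ C : ℝ, 0 < C ∧ ∀ k n : ℕ, 2 ≤ n → ∀ G : ℝ, 1 ≤ G → ∀ u v : ℕ, u ≤ v →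
    ∑ z ∈ (gaps k n).filter (fun z => (u ≤ z.1 ∧ z.2 ≤ v) ∧ G ≤ (z.2 : ℝ) - z.1), ((z.2 : ℝ) - z.1) ≤
      C * ((v : ℝ) - u + (n : ℝ) ^ 2) * Real.log n / G := by
  classical
  obtain ⟨C, hC, h⟩ := bad_leL
  have hl2 : 0 < Real.log 2 := Real.log_pos (by norm_num)
  refine ⟨16 * C + 16 / Real.log 2, by positivity, fun k n hn G hG u v huv => ?_⟩
  have hnr : (2 : ℝ) ≤ n := by exact_mod_cast hn
  have hl : Real.log 2 ≤ Real.log n := Real.log_le_log (by norm_num) hnr
  have hl0 : 0 < Real.log n := lt_of_lt_of_le hl2 hl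
  have hG0 : 0 < G := by linarith
  have huvr : (u : ℝ) ≤ v := by exact_mod_cast huv
  obtain ⟨Y, hY⟩ : ∃ Y : ℝ, Y = (v : ℝ) - u + (n : ℝ) ^ 2 := ⟨_, rfl⟩
  have hn4 : (4 : ℝ) ≤ (n : ℝ) ^ 2 := by nlinarith
  have hY4 : 4 ≤ Y := by rw [hY]; linarith
  obtain ⟨X, hX⟩ : ∃ X : ℕ, X = v - (u - 1) := ⟨_, rfl⟩
  have hX1 : (X : ℝ) ≤ v - u + 1 := by
    have : X + u ≤ v + 1 := by omega
    have : (X : ℝ) + u ≤ v + 1 := by exact_mod_cast this
    linarith
  have hX2 : (X : ℝ) + (n : ℝ) ^ 2 ≤ 2 * Y := by rw [hY]; linarith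
  rw [← hY]
  by_cases h4 : G < 4
  · have h1 := sum_gapsL k n 0 u v (by omega)
      ((gaps k n).filter (fun z => (u ≤ z.1 ∧ z.2 ≤ v) ∧ G ≤ (z.2 : ℝ) - z.1)) (filter_subset _ _)
      (by
        intro z hz
        have := (mem_gaps.1 (filter_subset _ _ hz)).2.1
        omega)
      (by
        intro z hz
        rw [mem_filter] at hz
        exact hz.2.1)
    refine h1.trans ?_
    rw [← hX]
    have h2 : (BadL n (u - 1) X 0).card ≤ X := by
      refine (card_filter_le _ _).trans ?_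
      rw [Nat.card_Icc]
      omega
    have h3 : ((BadL n (u - 1) X 0).card : ℝ) ≤ 2 * Y := by
      have : ((BadL n (u - 1) X 0).card : ℝ) ≤ X := by exact_mod_cast h2
      linarith
    rw [le_div_iff₀ hG0]
    have h5 : 16 ≤ (16 * C + 16 / Real.log 2) * Real.log n := by
      have h7 : (16 : ℝ) ≤ 16 / Real.log 2 * Real.log n := by
        rw [div_mul_eq_mul_div, le_div_iff₀ hl2]
        linarith
      have h8 : 0 ≤ 16 * C * Real.log n := by positivity
      linarith
    calc 2 * ((BadL n (u - 1) X 0).card : ℝ) * G ≤ 2 * (2 * Y) * 4 := by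
          apply mul_le_mul (by linarith) h4.le hG0.le (by positivity)
      _ = Y * 16 := by ring
      _ ≤ Y * ((16 * C + 16 / Real.log 2) * Real.log n) := mul_le_mul_of_nonneg_left h5 (by linarith)
      _ = _ := by ring
  · have h4' : 4 ≤ G := not_lt.1 h4
    obtain ⟨H, hH⟩ : ∃ H : ℕ, H = ⌊G / 2⌋₊ := ⟨_, rfl⟩
    have hH1 : (H : ℝ) ≤ G / 2 := by rw [hH]; exact Nat.floor_le (by linarith)
    have hH2 : G / 2 < H + 1 := by rw [hH]; exact Nat.lt_floor_add_one _
    have hH3 : 1 ≤ H := by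
      have : (0 : ℝ) < H := by linarith
      exact_mod_cast this
    have hH4 : G / 4 ≤ H := by linarith
    have h1 := sum_gapsL k n H u v (by omega)
      ((gaps k n).filter (fun z => (u ≤ z.1 ∧ z.2 ≤ v) ∧ G ≤ (z.2 : ℝ) - z.1)) (filter_subset _ _)
      (by
        intro z hz
        rw [mem_filter] at hz
        have h5 : ((z.1 + 2 * H : ℕ) : ℝ) ≤ z.2 := by
          push_cast
          linarith [hz.2.2]
        exact_mod_cast h5)
      (by
        intro z hz
        rw [mem_filter] at hz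
        exact hz.2.1)
    refine h1.trans ?_
    rw [← hX]
    have h2 := h n (u - 1) X H hn hH3
    have h3 : C * (X + (n : ℝ) ^ 2) * Real.log n / H ≤ C * (2 * Y) * Real.log n / (G / 4) := by
      apply div_le_div₀ (by positivity) _ (by positivity) hH4
      apply mul_le_mul_of_nonneg_right _ hl0.le
      exact mul_le_mul_of_nonneg_left hX2 hC.le
    have e : 2 * (C * (2 * Y) * Real.log n / (G / 4)) = 16 * C * Y * Real.log n / G := by
      field_simp
      ring
    calc 2 * ((BadL n (u - 1) X H).card : ℝ) ≤ 2 * (C * (2 * Y) * Real.log n / (G / 4)) := by linarith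
      _ = 16 * C * Y * Real.log n / G := e
      _ ≤ (16 * C + 16 / Real.log 2) * Y * Real.log n / G := by
          apply div_le_div_of_nonneg_right _ hG0.le
          apply mul_le_mul_of_nonneg_right _ hl0.le
          apply mul_le_mul_of_nonneg_right _ (by linarith)
          have : 0 < 16 / Real.log 2 := by positivity
          linarith

end Pool.Agent.K3h89.GD
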