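import Pool.Agent.K3h89.GD.LS

/-! Gaps between the integers with a divisor in `(n, 2 n)` (helper89): the elementary bound up to `n ^ 2` -/

set_option autoImplicit false

open Finset

namespace Pool.Agent.K3h89.GD

/-- small `m` -/
theorem near_small (n m : ℕ) (hn : 5 ≤ n) (h1 : n ≤ m) (h2 : m < 3 * n) :
    ∃ N, m < N ∧ N ≤ m + 4 ∧ HasDiv n N := by
  by_cases h : m + 1 < 2 * n
  · exact ⟨m + 1, by omega, by omega, m + 1, by omega, h, dvd_rfl⟩
  · refine ⟨2 * (m / 2 + 2), by omega, by omega, m / 2 + 2, by omega, by omega, Dvd.intro_left _ rfl⟩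

/-- medium `m` -/
theorem near_medium (n m : ℕ) (hn : 5 ≤ n) (h1 : 3 * n ≤ m) :
    ∃ N, m < N ∧ N ≤ m + (2 * m / (3 * n) + 1) ∧ HasDiv n N := by
  obtain ⟨f, hf⟩ : ∃ f, f = 2 * m / (3 * n) := ⟨_, rfl⟩
  have h3 : 3 * n * f ≤ 2 * m := by rw [hf]; exact Nat.mul_div_le _ _
  have h4 : 2 * m < 3 * n * (f + 1) := by
    rw [hf]
    exact Nat.lt_mul_div_succ _ (by omega)
  rw [← hf]
  obtain ⟨g, hg⟩ : ∃ g, g = m / (f + 1) := ⟨_, rfl⟩
  have h5 : (f + 1) * g ≤ m := by rw [hg]; exact Nat.mul_div_le _ _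
  have h6 : m < (f + 1) * (g + 1) := by
    rw [hg]
    exact Nat.lt_mul_div_succ _ (by omega)
  refine ⟨(f + 1) * (g + 1), h6, ?_, g + 1, ?_, ?_, Dvd.intro_left _ rfl⟩
  · have e : (f + 1) * (g + 1) = (f + 1) * g + (f + 1) := by ring
    omega
  · -- n (f + 1) ≤ m
    have h7 : n * (f + 1) ≤ m := by nlinarith
    have h8 : n ≤ g := by
      rw [hg, Nat.le_div_iff_mul_le (by omega)]
      exact h7
    omega
  · by_contra hcon
    have h7 : 2 * n ≤ g + 1 := by omega
    have h8 : 2 * ((f + 1) * g) < 3 * n * (f + 1) := by omega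
    have h9 : 2 * g < 3 * n := by
      by_contra h10
      have h11 : 3 * n ≤ 2 * g := by omega
      have h12 : 3 * n * (f + 1) ≤ 2 * g * (f + 1) := Nat.mul_le_mul_right _ h11
      have e : 2 * g * (f + 1) = 2 * ((f + 1) * g) := by ring
      omega
    omega

/-- large `m` -/
theorem near_large (n m r : ℕ) (hr : 46 ≤ r) (hrn : r * r ≤ n) (hnr : n < (r + 1) * (r + 1))
    (h1 : n * (r + 1) ≤ m) (h2 : m ≤ n ^ 2) :
    ∃ N, m < N ∧ N ≤ m + 16 * (r + 1) ∧ HasDiv n N := by
  have hn0 : 0 < n := by nlinarith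
  have hm0 : 0 < m := lt_of_lt_of_le (by positivity) h1
  obtain ⟨c, hc⟩ : ∃ c, c = 3 * n ^ 2 / m := ⟨_, rfl⟩
  have hc1 : m * c ≤ 3 * n ^ 2 := by rw [hc]; exact Nat.mul_div_le _ _
  have hc2 : 3 * n ^ 2 < m * (c + 1) := by
    rw [hc]
    exact Nat.lt_mul_div_succ _ hm0
  have hc3 : 2 * n ^ 2 < m * c := by nlinarith
  have hc4 : 1 ≤ c := by
    rcases Nat.eq_zero_or_pos c with h | h
    · rw [h] at hc3; omega
    · exact h
  have hc5 : c ≤ 3 * (r + 1) := by
    by_contra hcon
    have h3 : 3 * (r + 1) + 1 ≤ c := by omega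
    have h4 : n * (r + 1) * (3 * (r + 1)) < m * c := by
      calc n * (r + 1) * (3 * (r + 1)) < n * (r + 1) * (3 * (r + 1) + 1) := by
            apply Nat.mul_lt_mul_of_pos_left (by omega)
            positivity
        _ ≤ m * c := Nat.mul_le_mul h1 h3
    have h5 : n * (r + 1) * (3 * (r + 1)) = 3 * (n * ((r + 1) * (r + 1))) := by ring
    have h6 : n * n ≤ n * ((r + 1) * (r + 1)) := Nat.mul_le_mul_left n hnr.le
    nlinarith
  obtain ⟨e, he⟩ : ∃ e, e = Nat.sqrt (m / c) := ⟨_, rfl⟩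
  have he1 : c * (e * e) ≤ m := by
    have h3 : e * e ≤ m / c := by rw [he]; exact Nat.sqrt_le _
    calc c * (e * e) ≤ c * (m / c) := Nat.mul_le_mul_left c h3
      _ ≤ m := Nat.mul_div_le _ _
  have he2 : m < c * ((e + 1) * (e + 1)) := by
    have h3 : m / c < (e + 1) * (e + 1) := by rw [he]; exact Nat.lt_succ_sqrt _
    have h4 : m < c * (m / c + 1) := Nat.lt_mul_div_succ _ (by omega)
    exact lt_of_lt_of_le h4 (Nat.mul_le_mul_left c h3)
  have he3 : 1 ≤ e := by
    by_contra hcon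
    have h3 : e = 0 := by omega
    rw [h3] at he2
    have h4 : n * (r + 1) < 3 * (r + 1) := by omega
    have h5 : 3 * (r + 1) ≤ n * (r + 1) := Nat.mul_le_mul_right _ (by nlinarith)
    omega
  obtain ⟨d, hd⟩ : ∃ d, d = m / e + 1 := ⟨_, rfl⟩
  have hd1 : m < e * d := by rw [hd]; exact Nat.lt_mul_div_succ _ (by omega)
  have hd2 : e * d ≤ m + e := by
    have h3 : e * (m / e) ≤ m := Nat.mul_div_le _ _
    have h4 : e * d = e * (m / e) + e := by rw [hd]; ring
    omega
  have hd3 : c * e + 1 ≤ d := by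
    have h3 : c * e ≤ m / e := by
      rw [Nat.le_div_iff_mul_le (by omega)]
      calc c * e * e = c * (e * e) := by ring
        _ ≤ m := he1
    omega
  have hd4 : d ≤ c * e + 3 * c := by
    have h3 : m < (c * e + 3 * c) * e := by
      have h4 : c ≤ c * e := Nat.le_mul_of_pos_right c (by omega)
      nlinarith
    have h4 : m / e < c * e + 3 * c := by
      rw [Nat.div_lt_iff_lt_mul (by omega)]
      exact h3
    omega
  obtain ⟨t, ht⟩ : ∃ t, d = c * e + t := ⟨d - c * e, by omega⟩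
  have ht1 : t ≤ 3 * c := by omega
  -- c e ≤ 7 n / 4
  have hce : 4 * (c * e) ≤ 7 * n := by
    have h3 : (c * e) * (c * e) ≤ 3 * n ^ 2 := by
      calc (c * e) * (c * e) = c * (c * (e * e)) := by ring
        _ ≤ c * m := Nat.mul_le_mul_left c he1
        _ = m * c := by ring
        _ ≤ 3 * n ^ 2 := hc1
    by_contra hcon
    have h4 : 7 * n < 4 * (c * e) := by omega
    nlinarith
  -- the last j
  obtain ⟨j, hj⟩ : ∃ j, j = Nat.findGreatest (fun j => m < (d + c * j) * (e - j)) e := ⟨_, rfl⟩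
  have hj1 : m < (d + c * j) * (e - j) := by
    rw [hj]
    apply Nat.findGreatest_spec (P := fun j => m < (d + c * j) * (e - j)) (m := 0) (Nat.zero_le _)
    simp only [mul_zero, add_zero, Nat.sub_zero]
    rw [mul_comm]
    exact hd1
  have hj2 : j < e := by
    by_contra hcon
    have h3 : e - j = 0 := by omega
    rw [h3, mul_zero] at hj1
    omega
  have hj3 : (d + c * (j + 1)) * (e - (j + 1)) ≤ m := by
    by_contra hcon
    have h3 := Nat.findGreatest_is_greatest (P := fun j => m < (d + c * j) * (e - j)) (n := e) (k := j + 1)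
      (by rw [← hj]; omega) (by omega)
    exact h3 (by omega)
  obtain ⟨f, hf⟩ : ∃ f, e = j + 1 + f := ⟨e - (j + 1), by omega⟩
  have e1 : e - j = f + 1 := by omega
  have e2 : e - (j + 1) = f := by omega
  rw [e1] at hj1
  rw [e2] at hj3
  -- c j ^ 2 < e
  have hj4 : c * (j * j) < e := by
    have h3 : (d + c * j) * (f + 1) + t * j + c * (j * j) = e * d := by
      rw [ht, hf]
      ring
    omega
  have hj5 : c * j < 2 * (r + 1) := by
    by_contra hcon
    have h3 : 2 * (r + 1) ≤ c * j := by omega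
    have h4 : (2 * (r + 1)) * (2 * (r + 1)) ≤ (c * j) * (c * j) := Nat.mul_le_mul h3 h3
    have h5 : (c * j) * (c * j) = c * (c * (j * j)) := by ring
    have h6 : c * (c * (j * j)) ≤ c * e := Nat.mul_le_mul_left c hj4.le
    have h7 : (2 * (r + 1)) * (2 * (r + 1)) = 4 * ((r + 1) * (r + 1)) := by ring
    omega
  refine ⟨(d + c * j) * (f + 1), hj1, ?_, d + c * j, ?_, ?_, Dvd.intro _ rfl⟩
  · have h3 : (d + c * j) * (f + 1) = (d + c * (j + 1)) * f + (t + 2 * (c * j) + c) := by
      rw [ht, hf]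
      ring
    omega
  · have h3 : 2 * n ^ 2 < d * d := by
      have h4 : m * m < (e * d) * (e * d) := Nat.mul_lt_mul'' hd1 hd1
      have h5 : m * (c * (e * e)) ≤ m * m := Nat.mul_le_mul_left m he1
      have h6 : m * c * (e * e) < d * d * (e * e) := by
        calc m * c * (e * e) = m * (c * (e * e)) := by ring
          _ ≤ m * m := h5
          _ < (e * d) * (e * d) := h4
          _ = d * d * (e * e) := by ring
      have h7 : m * c < d * d := Nat.lt_of_mul_lt_mul_right h6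
      omega
    have h4 : n < d := by
      by_contra hcon
      have h5 : d ≤ n := by omega
      have h6 : d * d ≤ n * n := Nat.mul_le_mul h5 h5
      nlinarith
    omega
  · have h3 : 44 * (r + 1) < n := by nlinarith
    omega

/-- **integers with a divisor in `(n, 2 n)` in short intervals up to `n ^ 2`** -/
theorem near_all (n m : ℕ) (hn : 2116 ≤ n) (h1 : n ≤ m) (h2 : m ≤ n ^ 2) :
    ∃ N, m < N ∧ N ≤ m + 16 * (Nat.sqrt n + 1) ∧ HasDiv n N := by
  obtain ⟨r, hr⟩ : ∃ r, r = Nat.sqrt n := ⟨_, rfl⟩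
  have hr1 : r * r ≤ n := by rw [hr]; exact Nat.sqrt_le n
  have hr2 : n < (r + 1) * (r + 1) := by rw [hr]; exact Nat.lt_succ_sqrt n
  have hr3 : 46 ≤ r := by
    rw [hr, Nat.le_sqrt]
    omega
  rw [← hr]
  by_cases h3 : m < 3 * n
  · obtain ⟨N, a1, a2, a3⟩ := near_small n m (by omega) h1 h3
    exact ⟨N, a1, by omega, a3⟩
  · by_cases h4 : m < n * (r + 1)
    · obtain ⟨N, a1, a2, a3⟩ := near_medium n m (by omega) (by omega)
      refine ⟨N, a1, a2.trans ?_, a3⟩
      have h5 : 2 * m / (3 * n) ≤ r + 1 := by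
        apply Nat.div_le_of_le_mul
        nlinarith
      omega
    · exact near_large n m r hr3 hr1 hr2 (by omega) h2

end Pool.Agent.K3h89.GD
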