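import Pool.Agent.K3h89.GD.Exp
import Pool.Agent.K3h89.GD.Fejer
import Pool.Agent.K3h89.GD.Sqrt

/-! Gaps between the integers with a divisor in `(n, 2 n)` (helper89): all gaps are `O(n ^ (1 - c))` -/

set_option autoImplicit false

open Finset

namespace Pool.Agent.K3h89.GD

open Pool.Agent.H469R2.NK (e norm_e e_add conj_e e_zero)

theorem large_aux (k : ℕ) (η C : ℝ) (hη : 0 < η) (hη1 : η ≤ 1) (hC : 0 < C)
    (H : ∀ n m h : ℕ, 1 ≤ n → n ≤ m → 1 ≤ h →
      h * m ≤ n ^ (k + 1) → ‖∑ i ∈ range (n - 1), e (h * ((m : ℝ) / ((n : ℝ) + 1 + i)))‖ ≤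
        C * ((n : ℝ) ^ (1 - η) + (n : ℝ) ^ 2 / (h * m)))
    (n m : ℕ) (q : ℝ) (hq : q = (n : ℝ) ^ (η / 32)) (hq4 : 4 ≤ q) (hqC : 17 * C ≤ q)
    (hn : 5 ≤ n) (h1 : (n : ℝ) * q ^ 16 ≤ m) (h2 : m ≤ n ^ k) :
    ∃ N, m < N ∧ (N : ℝ) ≤ m + n / q ∧ HasDiv n N := by
  have hn0 : (0 : ℝ) < n := by exact_mod_cast (by omega : 0 < n)
  have hn1 : (1 : ℝ) ≤ n := by exact_mod_cast (by omega : 1 ≤ n)
  have hq0 : 0 < q := by linarith
  have hq1 : 1 ≤ q := by linarith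
  have hq32 : q ^ 32 = (n : ℝ) ^ η := by
    rw [hq, ← Real.rpow_natCast, ← Real.rpow_mul hn0.le]
    congr 1; push_cast; ring
  have hqn : q ^ 32 ≤ n := by
    rw [hq32]
    calc (n : ℝ) ^ η ≤ (n : ℝ) ^ (1 : ℝ) := Real.rpow_le_rpow_of_exponent_le hn1 hη1
      _ = n := Real.rpow_one _
  have hpow : (n : ℝ) ^ (1 - η) = n / q ^ 32 := by
    rw [Real.rpow_sub hn0, Real.rpow_one, hq32]
  have hm0 : (0 : ℝ) < m := lt_of_lt_of_le (by positivity) h1
  have hnm : (n : ℝ) ≤ m := by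
    refine le_trans ?_ h1
    exact le_mul_of_one_le_right hn0.le (one_le_pow₀ hq1)
  have hnm' : n ≤ m := by exact_mod_cast hnm
  obtain ⟨R, hR⟩ : ∃ R : ℕ, R = ⌈q ^ 8⌉₊ := ⟨_, rfl⟩
  have hR1 : q ^ 8 ≤ R := by rw [hR]; exact Nat.le_ceil _
  have hR2 : (R : ℝ) < q ^ 8 + 1 := by rw [hR]; exact Nat.ceil_lt_add_one (by positivity)
  have hq8 : (1 : ℝ) ≤ q ^ 8 := one_le_pow₀ hq1
  have hR0 : (0 : ℝ) < R := by linarith
  have hR3 : (R : ℝ) ≤ 2 * q ^ 8 := by linarith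
  have hRn : (R : ℝ) ≤ n := by
    refine le_trans (le_trans hR3 ?_) hqn
    have : (2 : ℝ) ≤ q ^ 24 := by
      calc (2 : ℝ) ≤ q := by linarith
        _ ≤ q ^ 24 := le_self_pow₀ hq1 (by norm_num)
    calc 2 * q ^ 8 ≤ q ^ 24 * q ^ 8 := mul_le_mul_of_nonneg_right this (by positivity)
      _ = q ^ 32 := by ring
  have hRn' : R ≤ n := by exact_mod_cast hRn
  by_contra hcon
  push Not at hcon
  set x : ℕ → ℝ := fun i => (m : ℝ) / ((n : ℝ) + 1 + i) with hx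
  have hS : ∀ h : ℕ, 1 ≤ h → h < R → ‖∑ i ∈ range (n - 1), e (h * x i)‖ ≤ 2 * C * (n / q ^ 16) := by
    intro h hh hhR
    have a1 := H n m h (by omega) hnm' hh (by
      calc h * m ≤ n * n ^ k := Nat.mul_le_mul (by omega) h2
        _ = n ^ (k + 1) := by ring)
    refine a1.trans ?_
    rw [hpow]
    have a2 : (n : ℝ) / q ^ 32 ≤ n / q ^ 16 := by
      apply div_le_div_of_nonneg_left hn0.le (by positivity)
      exact pow_le_pow_right₀ hq1 (by norm_num)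
    have hh1 : (1 : ℝ) ≤ h := by exact_mod_cast hh
    have a3 : (n : ℝ) ^ 2 / (h * m) ≤ n / q ^ 16 := by
      rw [div_le_div_iff₀ (by positivity) (by positivity)]
      calc (n : ℝ) ^ 2 * q ^ 16 = (n : ℝ) * (n * q ^ 16) := by ring
        _ ≤ (n : ℝ) * m := mul_le_mul_of_nonneg_left h1 hn0.le
        _ ≤ (n : ℝ) * (h * m) := by
            apply mul_le_mul_of_nonneg_left _ hn0.le
            exact le_mul_of_one_le_left hm0.le hh1
    calc C * ((n : ℝ) / q ^ 32 + (n : ℝ) ^ 2 / (h * m)) ≤ C * (n / q ^ 16 + n / q ^ 16) := by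
          apply mul_le_mul_of_nonneg_left _ hC.le
          linarith
      _ = 2 * C * (n / q ^ 16) := by ring
  have hδ : (1 : ℝ) / q ^ 2 ≤ 1 := by
    rw [div_le_one (by positivity)]
    exact one_le_pow₀ hq1
  have key := fejer (n - 1) R x (1 / q ^ 2) (2 * C * (n / q ^ 16)) (by positivity) hδ (by positivity) hS
    (by
      rintro i hi z ⟨b1, b2⟩
      -- `z d` is in `(m, m + δ d)`
      have hd : (0 : ℝ) < (n : ℝ) + 1 + i := by positivity
      have hx0 : 0 ≤ x i := by simp only [hx]; positivity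
      have hz0 : (0 : ℝ) < z := by linarith
      have hz1 : 0 < z := by exact_mod_cast hz0
      obtain ⟨w, hw⟩ : ∃ w : ℕ, z = w := ⟨z.toNat, (Int.toNat_of_nonneg hz1.le).symm⟩
      have hwz : (z : ℝ) = (w : ℝ) := by rw [hw]; rfl
      rw [hwz] at b1 b2
      have c1 : (m : ℝ) < w * ((n : ℝ) + 1 + i) := by
        simp only [hx] at b2
        rwa [div_lt_iff₀ hd] at b2
      have c2 : (w : ℝ) * ((n : ℝ) + 1 + i) < m + 1 / q ^ 2 * ((n : ℝ) + 1 + i) := by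
        have b3 : (w : ℝ) < (m : ℝ) / ((n : ℝ) + 1 + i) + 1 / q ^ 2 := by
          simp only [hx] at b1
          linarith
        calc (w : ℝ) * ((n : ℝ) + 1 + i) < ((m : ℝ) / ((n : ℝ) + 1 + i) + 1 / q ^ 2) * ((n : ℝ) + 1 + i) :=
              mul_lt_mul_of_pos_right b3 hd
          _ = _ := by field_simp
      have c3 : (n : ℝ) + 1 + i ≤ 2 * n := by
        have : n + 1 + i ≤ 2 * n := by omega
        exact_mod_cast this
      refine hcon (w * (n + 1 + i)) ?_ ?_ ⟨n + 1 + i, by omega, by omega, Dvd.intro_left _ rfl⟩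
      · have : (m : ℝ) < ((w * (n + 1 + i) : ℕ) : ℝ) := by push_cast; exact c1
        exact_mod_cast this
      · push_cast
        refine c2.le.trans ?_
        have c4 : 1 / q ^ 2 * ((n : ℝ) + 1 + i) ≤ n / q := by
          calc 1 / q ^ 2 * ((n : ℝ) + 1 + i) ≤ 1 / q ^ 2 * (2 * n) :=
                mul_le_mul_of_nonneg_left c3 (by positivity)
            _ = n / q * (2 / q) := by field_simp
            _ ≤ n / q * 1 := by
                apply mul_le_mul_of_nonneg_left _ (by positivity)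
                rw [div_le_one hq0]; linarith
            _ = n / q := mul_one _
        linarith)
  -- the contradiction
  have hL1 : ((n - 1 : ℕ) : ℝ) = n - 1 := by
    rw [Nat.cast_sub (by omega)]; push_cast; ring
  rw [hL1] at key
  have hn5 : (5 : ℝ) ≤ n := by exact_mod_cast hn
  have k1 : (1 / (1 / q ^ 2)) ^ 2 = q ^ 4 := by
    field_simp
  rw [k1] at key
  -- `L q^4 ≤ R L / 4`
  have k2 : ((n : ℝ) - 1) * q ^ 4 ≤ (R : ℝ) * (n - 1) / 4 := by
    have : q ^ 4 ≤ (R : ℝ) / 4 := by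
      have : 4 * q ^ 4 ≤ q ^ 8 := by
        calc 4 * q ^ 4 ≤ q ^ 4 * q ^ 4 := by
              apply mul_le_mul_of_nonneg_right _ (by positivity)
              calc (4 : ℝ) ≤ q := hq4
                _ ≤ q ^ 4 := le_self_pow₀ hq1 (by norm_num)
          _ = q ^ 8 := by ring
      linarith
    calc ((n : ℝ) - 1) * q ^ 4 ≤ (n - 1) * ((R : ℝ) / 4) := by
          apply mul_le_mul_of_nonneg_left this; linarith
      _ = _ := by ring
  -- `R ^ 2 B ≤ 4 C R n / q ^ 8`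
  have k3 : (R : ℝ) ^ 2 * (2 * C * (n / q ^ 16)) ≤ R * (n / 4) := by
    have e1 : (R : ℝ) ^ 2 * (2 * C * (n / q ^ 16)) = R * (n * (2 * C * R / q ^ 16)) := by ring
    rw [e1]
    apply mul_le_mul_of_nonneg_left _ hR0.le
    have e2 : 2 * C * R / q ^ 16 ≤ 1 / 4 := by
      rw [div_le_iff₀ (by positivity)]
      calc 2 * C * R ≤ 2 * C * (2 * q ^ 8) := mul_le_mul_of_nonneg_left hR3 (by positivity)
        _ = 1 / 4 * (16 * C * q ^ 8) := by ring
        _ ≤ 1 / 4 * (q ^ 8 * q ^ 8) := by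
            apply mul_le_mul_of_nonneg_left _ (by norm_num)
            apply mul_le_mul_of_nonneg_right _ (by positivity)
            have : q ≤ q ^ 8 := le_self_pow₀ hq1 (by norm_num)
            linarith
        _ = 1 / 4 * q ^ 16 := by ring
    calc (n : ℝ) * (2 * C * R / q ^ 16) ≤ n * (1 / 4) := mul_le_mul_of_nonneg_left e2 hn0.le
      _ = n / 4 := by ring
  have k4 : (R : ℝ) * (n - 1) ≤ R * (n / 4) + R * (n - 1) / 4 := by linarith
  have k5 : (R : ℝ) * (n - 1 - n / 4 - (n - 1) / 4) ≤ 0 := by linarith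
  have k6 : 0 < (n : ℝ) - 1 - n / 4 - (n - 1) / 4 := by linarith
  have := mul_pos hR0 k6
  linarith

theorem near_power (k : ℕ) : ∃ c : ℝ, 0 < c ∧ ∃ n0 : ℕ, ∀ n m : ℕ, n0 ≤ n → n ≤ m → m ≤ n ^ k →
    ∃ N, m < N ∧ (N : ℝ) ≤ m + (n : ℝ) ^ (1 - c) ∧ HasDiv n N := by
  obtain ⟨η, hη, hη1, C, hC, H⟩ := exp_sum k
  have hlim : Filter.Tendsto (fun n : ℕ => (n : ℝ) ^ (η / 32)) Filter.atTop Filter.atTop :=
    (tendsto_rpow_atTop (by positivity)).comp tendsto_natCast_atTop_atTop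
  obtain ⟨n1, hn1⟩ := Filter.eventually_atTop.1 (hlim.eventually_ge_atTop (max 4 (17 * C)))
  refine ⟨η / 32, by positivity, max n1 5, fun n m hn h1 h2 => ?_⟩
  have hn5 : 5 ≤ n := le_trans (le_max_right _ _) hn
  have hqq := hn1 n (le_trans (le_max_left _ _) hn)
  obtain ⟨q, hq⟩ : ∃ q : ℝ, q = (n : ℝ) ^ (η / 32) := ⟨_, rfl⟩
  rw [← hq] at hqq
  have hq4 : 4 ≤ q := le_trans (le_max_left _ _) hqq
  have hqC : 17 * C ≤ q := le_trans (le_max_right _ _) hqq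
  have hn0 : (0 : ℝ) < n := by exact_mod_cast (by omega : 0 < n)
  have hn1' : (1 : ℝ) ≤ n := by exact_mod_cast (by omega : 1 ≤ n)
  have hq0 : 0 < q := by linarith
  have hq1 : 1 ≤ q := by linarith
  have hq32 : q ^ 32 = (n : ℝ) ^ η := by
    rw [hq, ← Real.rpow_natCast, ← Real.rpow_mul hn0.le]
    congr 1; push_cast; ring
  have hqn : q ^ 32 ≤ n := by
    rw [hq32]
    calc (n : ℝ) ^ η ≤ (n : ℝ) ^ (1 : ℝ) := Real.rpow_le_rpow_of_exponent_le hn1' hη1
      _ = n := Real.rpow_one _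
  have hpow : (n : ℝ) ^ (1 - η / 32) = n / q := by
    rw [Real.rpow_sub hn0, Real.rpow_one, hq]
  rw [hpow]
  have hq31 : q ^ 31 ≤ n / q := by
    rw [le_div_iff₀ hq0, ← pow_succ]
    exact hqn
  have hq31' : q ^ 16 * 4 ≤ q ^ 31 := by
    calc q ^ 16 * 4 ≤ q ^ 16 * q ^ 15 := by
          apply mul_le_mul_of_nonneg_left _ (by positivity)
          exact hq4.trans (le_self_pow₀ hq1 (by norm_num))
      _ = q ^ 31 := by ring
  have hq16 : 1 ≤ q ^ 16 := one_le_pow₀ hq1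
  rcases lt_or_ge m (3 * n) with h3 | h3
  · obtain ⟨N, b1, b2, b3⟩ := near_small n m hn5 h1 h3
    refine ⟨N, b1, ?_, b3⟩
    have : (N : ℝ) ≤ m + 4 := by exact_mod_cast b2
    linarith
  rcases lt_or_ge (m : ℝ) (n * q ^ 16) with h4 | h4
  · obtain ⟨N, b1, b2, b3⟩ := near_medium n m hn5 h3
    refine ⟨N, b1, ?_, b3⟩
    have b4 : (N : ℝ) ≤ m + (((2 * m / (3 * n) : ℕ) : ℝ) + 1) := by exact_mod_cast b2
    have b5 : ((2 * m / (3 * n) : ℕ) : ℝ) ≤ (2 * m : ℕ) / ((3 * n : ℕ) : ℝ) := Nat.cast_div_le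
    have b6 : ((2 * m : ℕ) : ℝ) / ((3 * n : ℕ) : ℝ) ≤ q ^ 16 := by
      push_cast
      rw [div_le_iff₀ (by positivity)]
      nlinarith
    linarith
  · exact large_aux k η C hη hη1 hC H n m q hq hq4 hqC hn5 h4 h2

end Pool.Agent.K3h89.GD
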